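import Pool.Agent.Helper17.KA.Zero
import Pool.Agent.Helper19.KL.N7

set_option autoImplicit false
set_option linter.unusedSectionVars false

/-!
Project KA (MP_0b9e0b_ag), cycles of dimension `1`: reduction to cones, and the indices with a
vanishing coefficient.
-/

namespace Pool.Agent.Helper68.KA

open Pool.Agent.Helper16
open Pool.Agent.Helper1.KL (Var VarF Key key fld spec cyc relations rat CH coef Idx)
open Pool.Agent.Helper1.KL (At0 key_eq_iff key_map restr restr_map key_restr fld_restr
  trdeg_fld_restr trdeg_fld_map essFiniteType_fld fld_eq_range)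
open Pool.Agent.Helper1.KA
open Pool.Agent.Helper17.KA
open Pool.Agent.Helper19.KL (homK at0_res one_add_X_ne rank_zero_of rank_le_one_of coef_ne
  spec_some key_of_res IsCone key_cone alg_of_one alg_of_adjoin trdeg_adjoin_of_alg
  val_one_of_alg val_eq_one res_inv at0_add at0_mul at0_const at0_X)
open scoped Classical

section aff

variable {k : Type} [Field k] {p a n : ℕ} {c : Fin n → k}
  {τ : Fin n → Option (ZMod p)} {N N' : Type} [Field N] [Algebra k N] [Field N'] [Algebra k N']

/-- The point with the coordinates `x_i g_i + h_i`. -/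
def aff (φ : N →ₐ[k] N') (g h : Fin n → N') (x : Fin n → Option N) : Fin n → Option N' :=
  fun i => (x i).map fun u => φ u * g i + h i

theorem aff_none (φ : N →ₐ[k] N') (g h : Fin n → N') (x : Fin n → Option N) (i : Fin n) :
    aff φ g h x i = none ↔ x i = none := by
  unfold aff
  simp

theorem aff_some (φ : N →ₐ[k] N') (g h : Fin n → N') {x : Fin n → Option N} {i : Fin n} {u : N}
    (hx : x i = some u) : aff φ g h x i = some (φ u * g i + h i) := by
  unfold aff
  rw [hx]
  rfl

theorem aff_term {x : Fin n → Option N} (φ : N →ₐ[k] N') {g h : Fin n → N'} {g0 : N'}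
    (hg : ∀ i, coef τ i ≠ 0 → g i = g0 ∧ h i = 0) (i : Fin n) (hi : coef τ i ≠ 0) :
    (aff φ g h x i).getD 0 = φ ((x i).getD 0) * g0 := by
  unfold aff
  obtain ⟨h1, h2⟩ := hg i hi
  cases x i <;> simp [h1, h2]

theorem av_aff {x : Fin n → Option N} (hx : AV a c τ N x) (φ : N →ₐ[k] N') {g h : Fin n → N'}
    {g0 : N'} (hg : ∀ i, coef τ i ≠ 0 → g i = g0 ∧ h i = 0) :
    AV a c τ N' (aff φ g h x) := by
  refine ⟨fun i => by rw [aff_none]; exact hx.1 i, ?_⟩
  have h1 : ∀ i, (coef τ i : N') * algebraMap k N' (c i) * (aff φ g h x i).getD 0 ^ a =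
      φ ((coef τ i : N) * algebraMap k N (c i) * (x i).getD 0 ^ a) * g0 ^ a := by
    intro i
    by_cases hi : coef τ i = 0
    · rw [hi]
      simp
    · rw [aff_term φ hg i hi]
      simp only [map_mul, map_natCast, map_pow, AlgHom.commutes]
      ring
  rw [Finset.sum_congr rfl fun i _ => h1 i, ← Finset.sum_mul, ← map_sum, hx.2, map_zero, zero_mul]

theorem Bfun_aff (x : Fin n → Option N) (φ : N →ₐ[k] N') {g h : Fin n → N'}
    {g0 : N'} (hg : ∀ i, coef τ i ≠ 0 → g i = g0 ∧ h i = 0) :
    Bfun τ (aff φ g h x) = φ (Bfun τ x) * g0 := by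
  unfold Bfun
  rw [map_sum, Finset.sum_mul]
  refine Finset.sum_congr rfl fun i _ => ?_
  by_cases hi : coef τ i = 0
  · rw [hi]
    simp
  · rw [aff_term φ hg i hi]
    simp only [map_mul, map_natCast]
    ring

theorem yv_aff {x : Fin n → Option N} (hx : YV a c τ N x) (φ : N →ₐ[k] N') {g h : Fin n → N'}
    {g0 : N'} (hg : ∀ i, coef τ i ≠ 0 → g i = g0 ∧ h i = 0) :
    YV a c τ N' (aff φ g h x) :=
  ⟨av_aff hx.1 φ hg, by rw [Bfun_aff _ φ hg, hx.2, map_zero, zero_mul]⟩

/-- If the place is trivial on `N`, the limit point is the same. -/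
theorem key_spec_triv {σ : Type} (v : Place k (RatFunc N))
    (hv : ∀ u : N, u ≠ 0 → v.val (algebraMap N (RatFunc N) u) = 1)
    (hX : v.val (RatFunc.X : RatFunc N) < 1) {z : σ → Option N} {z' : σ → Option (RatFunc N)}
    (h1 : ∀ j, z j = none → z' j = none)
    (h2 : ∀ j u, z j = some u → ∃ g, z' j = some g ∧ At0 g u) : key k (spec v z') = key k z := by
  obtain ⟨φ, hφ⟩ := HC.exists_resHomL (K := k) v (L := N) (N := RatFunc N) hv
  have hspec : spec v z' = fun j => (z j).map φ := by
    funext j
    cases hj : z j with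
    | none =>
      unfold spec
      rw [h1 j hj]
      rfl
    | some u =>
      obtain ⟨g, hg1, hg2⟩ := h2 j u hj
      obtain ⟨h3, h4⟩ := at0_res v hv hX φ hφ hg2
      unfold spec
      rw [hg1]
      simp only [Option.bind_some, Option.map_some]
      rw [if_pos h3, h4]
  rw [hspec, key_map]

theorem at0_one_add : At0 (1 + RatFunc.X : RatFunc N) (1 : N) := by
  have h := at0_add (at0_const (1 : N)) at0_X
  rwa [map_one, add_zero] at h

/-- The coordinates of a specialised point. -/
theorem spec_coord {M : Type} [Field M] [Algebra k M] (v : Place k M) {z : Fin n → Option M}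
    (hz : ∀ i, τ i = none ↔ z i = none) (hw : ∀ i, τ i = none ↔ spec v z i = none) (i : Fin n) :
    (z i).getD 0 ∈ v.ring ∧ (spec v z i).getD 0 = v.res ((z i).getD 0) := by
  by_cases hi : τ i = none
  · rw [(hz i).1 hi, (hw i).1 hi]
    exact ⟨zero_mem _, v.res_zero.symm⟩
  · obtain ⟨u, hu⟩ := Option.ne_none_iff_exists'.1 fun h => hi ((hz i).2 h)
    obtain ⟨h1, h2⟩ := spec_some v hu fun h => hi ((hw i).2 h)
    rw [hu, h2]
    exact ⟨h1, rfl⟩

/-- If all coordinates vanish, then the dimension is zero. -/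
theorem trdeg_zero_of {x : Fin n → Option N} (h : ∀ i, IsAlgebraic k ((x i).getD 0)) :
    Algebra.trdeg k (fld k x) = 0 := by
  rw [fld_eq_range]
  exact trdeg_adjoin_of_alg (by rintro _ ⟨i, rfl⟩; exact h i)

/-- Points with only one transcendental coordinate, the others being zero. -/
theorem key_axis {x : Fin n → Option N} {x' : Fin n → Option N'} {l : Fin n}
    (hx : ∀ m, m ≠ l → (x m).getD 0 = 0) (hx' : ∀ m, m ≠ l → (x' m).getD 0 = 0)
    (hr : Algebra.trdeg k (fld k x) = (1 : ℕ)) (hr' : Algebra.trdeg k (fld k x') = (1 : ℕ))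
    (hn : ∀ m, x m = none ↔ x' m = none) : key k x = key k x' := by
  have key1 : ∀ {E : Type} [Field E] [Algebra k E] {y : Fin n → Option E},
      (∀ m, m ≠ l → (y m).getD 0 = 0) → Algebra.trdeg k (fld k y) = (1 : ℕ) →
      Transcendental k ((y l).getD 0) := by
    intro E _ _ y hy hyr h0
    have h1 := trdeg_zero_of (k := k) (x := y) fun i => by
      by_cases hi : i = l
      · rw [hi]; exact h0
      · rw [hy i hi]; exact isAlgebraic_zero
    rw [h1] at hyr
    simp at hyr
  refine key_cone (κ := k) (Algebra.ofId k N) (Algebra.ofId k N')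
    (fun m => if m = l then 1 else 0) (key1 hx hr) (key1 hx' hr') (fun m => ?_) (fun m => ?_) hn
  · by_cases hm : m = l
    · subst hm
      simp
    · rw [if_neg hm, hx m hm, map_zero, zero_mul]
  · by_cases hm : m = l
    · subst hm
      simp
    · rw [if_neg hm, hx' m hm, map_zero, zero_mul]

end aff

section beta

variable {k : Type} [Field k] {p a n : ℕ} {c : Fin n → k}
  {τ : Fin n → Option (ZMod p)} {N : Type} [Field N] [Algebra k N]

/-- Reduction to cones. -/
theorem mem_beta {W : Submodule ℚ (Key k (Fin n) →₀ ℚ)}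
    (hW : rat (YV a c τ) (PY a c τ) 1 ≤ W)
    (hcone : ∀ (M : Type) [Field M] [Algebra k M] (y : Fin n → Option M), YV a c τ M y →
      Algebra.trdeg k (fld k y) = (1 : ℕ) → IsCone k y → Finsupp.single (key k y) 1 ∈ W)
    {N : Type} [Field N] [Algebra k N] {x : Fin n → Option N}
    (hx : YV a c τ N x) (hr : Algebra.trdeg k (fld k x) = (1 : ℕ)) :
    Finsupp.single (key k x) 1 ∈ W := by
  rw [← key_restr]
  have hx' := yv_restr hx
  have hr' := hr
  rw [← trdeg_fld_restr] at hr'
  set y := restr k x with hy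
  by_cases halg : IsCone k y
  · exact hcone _ y hx' hr' halg
  set d : Fin n × Fin n → fld k x := fun i => (y i.1).getD 0 / (y i.2).getD 0 with hd
  set M := IntermediateField.adjoin k (Set.range d) with hM
  have hMtr : Algebra.trdeg k M ≠ 0 := by
    intro h0
    apply halg
    intro i j
    exact alg_of_adjoin (S := Set.range d) h0 ⟨(i, j), rfl⟩
  have halgM : ∀ u : fld k x, IsAlgebraic M u := alg_of_one (by exact_mod_cast hr) M hMtr
  set ι := IsScalarTower.toAlgHom k (fld k x) (RatFunc (fld k x)) with hι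
  set z' := sc ι (1 + RatFunc.X) y with hz'
  have hz'Y : YV a c τ (RatFunc (fld k x)) z' := yv_sc hx' _ _
  refine homK (V := YV a c τ) (P := PY a c τ) (essFiniteType_fld x) hr hr'
    (fun N' _ _ φ => yv_map hx' φ) (z' := z') (f := RatFunc.X) (Or.inl hz'Y) RatFunc.X_ne_zero
    (fun j hj => (sc_none _ _ _ _).2 hj) (fun j e hj => ⟨_, sc_some _ _ hj, ?_⟩) at0_X hW ?_
  · have h := at0_mul (at0_const e) (at0_one_add (N := fld k x))
    rwa [mul_one] at h
  intro v hv hw hwr
  have hco := spec_coord v hz'Y.1.1 hw.1.1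
  have hgd : ∀ i, (z' i).getD 0 =
      algebraMap (fld k x) (RatFunc (fld k x)) ((y i).getD 0) * (1 + RatFunc.X) := by
    intro i
    rw [hz', getD_sc]
    rfl
  by_cases hvM : ∀ u ∈ M, u ≠ 0 → v.val (algebraMap (fld k x) (RatFunc (fld k x)) u) = 1
  · left
    have htriv : ∀ u : fld k x, u ≠ 0 →
        v.val (algebraMap (fld k x) (RatFunc (fld k x)) u) = 1 :=
      fun u hu => val_one_of_alg v M hvM (halgM u) hu
    obtain ⟨i, hi⟩ : ∃ i, (y i).getD 0 ≠ 0 := by
      by_contra hcon
      push Not at hcon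
      apply halg
      intro i j
      rw [hcon i, zero_div]
      exact isAlgebraic_zero
    have hpos : 0 < v.ord (RatFunc.X : RatFunc (fld k x)) := by
      rcases lt_or_gt_of_ne hv with hneg | hpos
      · exfalso
        have h1 := (v.ord_neg_iff RatFunc.X_ne_zero).1 hneg
        have h4 : v.val ((z' i).getD 0) ≤ 1 := (hco i).1
        rw [hgd, map_mul, htriv _ hi, one_mul,
          Valuation.map_add_eq_of_lt_right _ (by rwa [map_one])] at h4
        exact absurd h4 (not_le.2 h1)
      · exact hpos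
    refine ⟨key_spec_triv v htriv ((v.ord_pos_iff RatFunc.X_ne_zero).1 hpos)
      (fun j hj => (sc_none _ _ _ _).2 hj) fun j e hj => ⟨_, sc_some _ _ hj, ?_⟩, hpos⟩
    have h := at0_mul (at0_const e) (at0_one_add (N := fld k x))
    rwa [mul_one] at h
  · right
    push Not at hvM
    obtain ⟨m, hm, hm0, hm1⟩ := hvM
    -- a nonzero coordinate of the limit point
    obtain ⟨j, hj⟩ : ∃ j, (spec v z' j).getD 0 ≠ 0 := by
      by_contra hcon
      push Not at hcon
      have h1 := trdeg_zero_of (k := k) (x := spec v z') fun i => by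
        rw [hcon i]; exact isAlgebraic_zero
      rw [h1] at hwr
      simp at hwr
    have hj1 : v.val ((z' j).getD 0) = 1 := by
      refine val_eq_one v (hco j).1 ?_
      rw [← (hco j).2]
      exact hj
    have hyj : (z' j).getD 0 ≠ 0 := by
      intro h0
      rw [h0, map_zero] at hj1
      exact zero_ne_one hj1
    obtain ⟨h5, h6⟩ := res_inv v hj1
    have hq : ∀ i, algebraMap (fld k x) (RatFunc (fld k x)) (d (i, j)) =
        (z' i).getD 0 * ((z' j).getD 0)⁻¹ := by
      intro i
      have h7 : algebraMap (fld k x) (RatFunc (fld k x)) (d (i, j)) =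
          algebraMap _ _ ((y i).getD 0) / algebraMap _ _ ((y j).getD 0) := by
        rw [← map_div₀]
      have h8 := one_add_X_ne (N := fld k x)
      rw [h7, hgd, hgd]
      rw [hgd] at hyj
      have h9 : algebraMap (fld k x) (RatFunc (fld k x)) ((y j).getD 0) ≠ 0 :=
        left_ne_zero_of_mul hyj
      field_simp
    have hmem : ∀ i, v.val (algebraMap (fld k x) (RatFunc (fld k x)) (d (i, j))) ≤ 1 := by
      intro i
      rw [hq]
      exact mul_mem (hco i).1 h5
    have h1 := HC.abh_adjoin (k₀ := k) v (M := M) (s := 0) (by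
        have h2 : Algebra.trdeg k M ≤ Algebra.trdeg k (fld k x) :=
          HC.trdeg_le_of_inj M.val Subtype.val_injective
        rw [hr] at h2
        simpa using h2) ⟨⟨m, hm⟩, fun h => hm0 (congrArg Subtype.val h), hm1⟩
      (fun i : Fin n =>
        (⟨d (i, j), IntermediateField.subset_adjoin k _ ⟨(i, j), rfl⟩⟩ : M)) hmem
    have h2 : Algebra.trdeg k (IntermediateField.adjoin k (Set.range fun i : Fin n =>
        v.res (algebraMap (fld k x) (RatFunc (fld k x)) (d (i, j))))) = 0 := by
      rw [← nonpos_iff_eq_zero]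
      exact_mod_cast h1
    have h3 : ∀ i, IsAlgebraic k ((spec v z' i).getD 0 / (spec v z' j).getD 0) := by
      intro i
      refine alg_of_adjoin h2 ⟨i, ?_⟩
      change v.res (algebraMap (fld k x) (RatFunc (fld k x)) (d (i, j))) = _
      rw [hq, v.res_mul (hco i).1 h5, h6, ← (hco i).2, ← (hco j).2]
      rfl
    refine hcone _ _ hw hwr fun i i' => ?_
    have h4 : (spec v z' i).getD 0 / (spec v z' i').getD 0 =
        ((spec v z' i).getD 0 / (spec v z' j).getD 0) *
          ((spec v z' i').getD 0 / (spec v z' j).getD 0)⁻¹ := by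
      by_cases h0 : (spec v z' i').getD 0 = 0
      · rw [h0]; simp
      · field_simp
    rw [h4]
    exact (h3 i).mul (h3 i').inv

end beta

section alpha

variable {k : Type} [Field k] {p a n : ℕ} {c : Fin n → k}
  {τ : Fin n → Option (ZMod p)}

/-- There is a point of `AV` with algebraic coordinates, the coordinate with number `l` being `1`,
and with another nonzero coordinate. -/
theorem exists_av_one (ha : a ≠ 0) {i j l : Fin n} (hij : i ≠ j) (hil : i ≠ l) (hjl : j ≠ l)
    (hi : τ i ≠ none) (hj : τ j ≠ none) (hl : τ l ≠ none) (hl0 : coef τ l = 0) :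
    ∃ w : Fin n → Option (AlgebraicClosure k), AV a c τ (AlgebraicClosure k) w ∧
      w l = some 1 ∧ ∃ m, m ≠ l ∧ (w m).getD 0 ≠ 0 := by
  set K := AlgebraicClosure k with hK
  -- the coordinates
  obtain ⟨u, v, huv, hs⟩ : ∃ u v : K, (u ≠ 0 ∨ v ≠ 0) ∧
      (coef τ j : K) * algebraMap k K (c j) * u ^ a +
        (coef τ i : K) * algebraMap k K (c i) * v ^ a = 0 := by
    by_cases h0 : (coef τ j : K) * algebraMap k K (c j) = 0
    · exact ⟨1, 0, Or.inl one_ne_zero, by rw [h0, zero_pow ha]; ring⟩
    · obtain ⟨u, hu⟩ := IsAlgClosed.exists_pow_nat_eq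
        (-((coef τ i : K) * algebraMap k K (c i)) / ((coef τ j : K) * algebraMap k K (c j)))
        (Nat.pos_of_ne_zero ha)
      refine ⟨u, 1, Or.inr one_ne_zero, ?_⟩
      rw [hu, one_pow, mul_one, mul_div_cancel₀ _ h0]
      ring
  set g : Fin n → K := fun m => if m = j then u else if m = i then v else if m = l then 1 else 0
    with hg
  set w : Fin n → Option K := fun m => if τ m = none then none else some (g m) with hw
  have hws : ∀ m, τ m ≠ none → w m = some (g m) := fun m hm => if_neg hm
  have hgd : ∀ m, (coef τ m : K) * algebraMap k K (c m) * (w m).getD 0 ^ a =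
      (coef τ m : K) * algebraMap k K (c m) * g m ^ a := by
    intro m
    by_cases hm : τ m = none
    · rw [coef_none hm]
      simp
    · rw [hws m hm]
      rfl
  have h1 : g j = u := if_pos rfl
  have h2 : g i = v := by
    change (if i = j then u else if i = i then v else if i = l then 1 else 0) = v
    rw [if_neg hij, if_pos rfl]
  have h3 : g l = 1 := by
    change (if l = j then u else if l = i then v else if l = l then 1 else 0) = 1
    rw [if_neg hjl.symm, if_neg hil.symm, if_pos rfl]
  refine ⟨w, ⟨fun m => ?_, ?_⟩, by rw [hws l hl, h3], ?_⟩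
  · by_cases hm : τ m = none
    · have : w m = none := if_pos hm
      exact ⟨fun _ => this, fun _ => hm⟩
    · rw [hws m hm]
      exact ⟨fun h => absurd h hm, fun h => absurd h (Option.some_ne_none _)⟩
  · rw [Finset.sum_congr rfl fun m _ => hgd m, ← hs]
    have hji : j ≠ i := hij.symm
    rw [← Finset.sum_subset (Finset.subset_univ ({j, i} : Finset (Fin n))) ?_,
      Finset.sum_pair hji, h1, h2]
    intro m _ hm
    rw [Finset.mem_insert, Finset.mem_singleton, not_or] at hm
    by_cases hml : m = l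
    · rw [hml, hl0]
      simp
    · have h4 : g m = 0 := by
        change (if m = j then u else if m = i then v else if m = l then 1 else 0) = 0
        rw [if_neg hm.1, if_neg hm.2, if_neg hml]
      rw [h4, zero_pow ha, mul_zero]
  · rcases huv with h | h
    · exact ⟨j, hjl, by rw [hws j hj, h1]; exact h⟩
    · exact ⟨i, hil, by rw [hws i hi, h2]; exact h⟩

/-- Points with only one transcendental coordinate, whose coefficient is zero, and with another
nonzero coordinate. -/
theorem mem_flat {l : Fin n} (hl0 : coef τ l = 0)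
    {N : Type} [Field N] [Algebra k N] {x : Fin n → Option N}
    (hx : YV a c τ N x) (hr : Algebra.trdeg k (fld k x) = (1 : ℕ))
    (halg : ∀ i, i ≠ l → IsAlgebraic k ((x i).getD 0)) {i : Fin n} (hil : i ≠ l)
    (hi : (x i).getD 0 ≠ 0) :
    Finsupp.single (key k x) 1 ∈ rat (YV a c τ) (PY a c τ) 1 := by
  rw [← key_restr]
  have hx' := yv_restr hx
  have hr' := hr
  rw [← trdeg_fld_restr] at hr'
  have halg' : ∀ m, m ≠ l → IsAlgebraic k ((restr k x m).getD 0) := by
    intro m hm
    have h1 := halg m hm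
    rw [← getD_restr (k := k) x m] at h1
    exact (isAlgebraic_algebraMap_iff (A := N) (S := fld k x) (Subtype.val_injective)).1 h1
  have hi' : (restr k x i).getD 0 ≠ 0 := by
    intro h0
    have h1 := getD_restr (k := k) x i
    rw [h0] at h1
    exact hi h1.symm
  set y := restr k x with hy
  set ι := IsScalarTower.toAlgHom k (fld k x) (RatFunc (fld k x)) with hι
  set g : Fin n → RatFunc (fld k x) := fun m => if m = l then 1 else 1 + RatFunc.X with hg
  set z' := aff ι g 0 y with hz'
  have hgl : g l = 1 := if_pos rfl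
  have hgn : ∀ m, m ≠ l → g m = 1 + RatFunc.X := fun m hm => if_neg hm
  have hz'Y : YV a c τ (RatFunc (fld k x)) z' := yv_aff hx' ι (g0 := 1 + RatFunc.X)
    fun m hm => ⟨hgn m (by rintro rfl; exact hm hl0), rfl⟩
  have hat : ∀ m, At0 (g m) (1 : fld k x) := by
    intro m
    by_cases hm : m = l
    · rw [hm, hgl]
      have h := at0_const (1 : fld k x)
      rwa [map_one] at h
    · rw [hgn m hm]
      exact at0_one_add
  have hat' : ∀ m e, At0 (ι e * g m + (0 : Fin n → RatFunc (fld k x)) m) e := by
    intro m e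
    have h := at0_mul (at0_const e) (hat m)
    rw [mul_one] at h
    rw [Pi.zero_apply, add_zero]
    exact h
  refine homK (V := YV a c τ) (P := PY a c τ) (essFiniteType_fld x) hr hr'
    (fun N' _ _ φ => yv_map hx' φ) (z' := z') (f := RatFunc.X) (Or.inl hz'Y) RatFunc.X_ne_zero
    (fun j hj => (aff_none _ _ _ _ _).2 hj) (fun j e hj => ⟨_, aff_some _ _ _ hj, hat' j e⟩)
    at0_X le_rfl ?_
  intro v hv hw hwr
  left
  have hco := spec_coord v hz'Y.1.1 hw.1.1
  have hval : ∀ m, m ≠ l → (y m).getD 0 ≠ 0 →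
      v.val (algebraMap (fld k x) (RatFunc (fld k x)) ((y m).getD 0)) = 1 := by
    intro m hm hm0
    refine Place.val_eq_one_of_algebraic v (halg' m hm).algebraMap ?_
    rw [Ne, map_eq_zero]
    exact hm0
  have hgd : ∀ m, (z' m).getD 0 =
      algebraMap (fld k x) (RatFunc (fld k x)) ((y m).getD 0) * g m := by
    intro m
    rw [hz']
    unfold aff
    cases y m with
    | none => simp
    | some u =>
      simp only [Option.map_some, Option.getD_some, Pi.zero_apply, add_zero]
      rfl
  have hpos : 0 < v.ord (RatFunc.X : RatFunc (fld k x)) := by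
    rcases lt_or_gt_of_ne hv with hneg | hpos
    · exfalso
      have h1 := (v.ord_neg_iff RatFunc.X_ne_zero).1 hneg
      have h4 : v.val ((z' i).getD 0) ≤ 1 := (hco i).1
      rw [hgd, hgn i hil, map_mul, hval i hil hi', one_mul,
        Valuation.map_add_eq_of_lt_right _ (by rwa [map_one])] at h4
      exact absurd h4 (not_le.2 h1)
    · exact hpos
  refine ⟨?_, hpos⟩
  have hX1 := (v.ord_pos_iff RatFunc.X_ne_zero).1 hpos
  have hX0 : v.res (RatFunc.X : RatFunc (fld k x)) = 0 := (v.res_eq_zero_iff hX1.le).2 hX1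
  have hXr : (RatFunc.X : RatFunc (fld k x)) ∈ v.ring := hX1.le
  refine key_of_res ι v (fun m => ?_) (fun m => ?_) (by rw [hwr, hr'])
  · change algebraMap (fld k x) (RatFunc (fld k x)) ((y m).getD 0) ∈ v.ring ∧
      (spec v z' m).getD 0 = v.res (algebraMap (fld k x) (RatFunc (fld k x)) ((y m).getD 0))
    obtain ⟨h1, h2⟩ := hco m
    by_cases hm : m = l
    · rw [hgd, hm, hgl, mul_one] at h1 h2
      rw [hm]
      exact ⟨h1, h2⟩
    · have h4 : algebraMap (fld k x) (RatFunc (fld k x)) ((y m).getD 0) ∈ v.ring := by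
        by_cases h0 : (y m).getD 0 = 0
        · rw [h0, map_zero]
          exact zero_mem _
        · exact (hval m hm h0).le
      refine ⟨h4, ?_⟩
      rw [h2, hgd, hgn m hm, v.res_mul h4 (add_mem (one_mem _) hXr), v.res_add (one_mem _) hXr,
        v.res_one, hX0, add_zero, mul_one]
  · rw [← hw.1.1 m, ← hx'.1.1 m]

/-- The axis, with a given auxiliary point. -/
theorem mem_axis_aux (ha : a ≠ 0) {l : Fin n} (hl0 : coef τ l = 0)
    {M : Type} [Field M] [Algebra k M] {x : Fin n → Option M} (hx : YV a c τ M x)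
    (hr : Algebra.trdeg k (fld k x) = (1 : ℕ)) (h0 : ∀ m, m ≠ l → (x m).getD 0 = 0)
    {K : Type} [Field K] [Algebra k K] (hKE : Algebra.EssFiniteType k K)
    (hwr : Algebra.trdeg k K = (0 : ℕ)) {y : Fin n → Option K} (hw' : AV a c τ K y)
    (hwl' : y l = some 1) {o : Fin n} (hol : o ≠ l) (ho' : (y o).getD 0 ≠ 0) :
    Finsupp.single (key k x) 1 ∈ rat (YV a c τ) (PY a c τ) 1 := by
  have hKalg : ∀ e : K, IsAlgebraic k e := by
    intro e
    rw [Nat.cast_zero, trdeg_eq_zero_iff] at hwr
    exact hwr.isAlgebraic e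
  set N := RatFunc K with hN
  set ι : K →ₐ[k] RatFunc N := (IsScalarTower.toAlgHom k N (RatFunc N)).comp
    (IsScalarTower.toAlgHom k K N) with hι
  have hιe : ∀ e, ι e = algebraMap N (RatFunc N) (algebraMap K N e) := fun e => rfl
  -- the point at `s = 0`
  set z : Fin n → Option N := fun m => (y m).map fun _ => if m = l then RatFunc.X else 0 with hz
  have hz0 : ∀ m, m ≠ l → (z m).getD 0 = 0 := by
    intro m hm
    change ((y m).map fun _ => (if m = l then RatFunc.X else 0 : N)).getD 0 = 0
    rw [if_neg hm]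
    cases y m <;> rfl
  have hzl : z l = some RatFunc.X := by
    change ((y l).map fun _ => (if l = l then RatFunc.X else 0 : N)) = _
    rw [hwl', if_pos rfl]
    rfl
  have hzn : ∀ m, z m = none ↔ y m = none := by
    intro m
    rw [hz]
    simp
  have hzY : YV a c τ N z := by
    refine ⟨⟨fun m => by rw [hzn]; exact hw'.1 m, ?_⟩, ?_⟩
    · refine Finset.sum_eq_zero fun m _ => ?_
      by_cases hm : m = l
      · rw [hm, hl0]
        simp
      · rw [hz0 m hm, zero_pow ha, mul_zero]
    · unfold Bfun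
      refine Finset.sum_eq_zero fun m _ => ?_
      by_cases hm : m = l
      · rw [hm, hl0]
        simp
      · rw [hz0 m hm, mul_zero]
  have hNr : Algebra.trdeg k N = (1 : ℕ) := by
    have h1 : Algebra.trdeg k (RatFunc K) = _ := HC.trdeg_ratFuncL hwr
    rw [h1]
    simp
  have hzr : Algebra.trdeg k (fld k z) = (1 : ℕ) := by
    have h1 : Algebra.trdeg k (fld k z) ≤ Algebra.trdeg k N :=
      HC.trdeg_le_of_inj (fld k z).val Subtype.val_injective
    rw [hNr] at h1
    refine le_antisymm h1 ?_
    rw [Nat.cast_one, Cardinal.one_le_iff_ne_zero]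
    intro h2
    rw [trdeg_eq_zero_iff] at h2
    have h3 : (RatFunc.X : N) ∈ fld k z := Pool.Agent.Helper1.KL.mem_fld hzl
    have h4 := h2.isAlgebraic ⟨RatFunc.X, h3⟩
    have h5 : IsAlgebraic k (RatFunc.X : N) :=
      (isAlgebraic_algebraMap_iff (A := N) (S := fld k z) (Subtype.val_injective)).2 h4
    exact RatFunc.transcendental_X (h5.extendScalars (algebraMap k K).injective)
  have hkey : key k x = key k z := by
    refine key_axis h0 hz0 hr hzr fun m => ?_
    rw [hzn, ← hw'.1 m, ← hx.1.1 m]
  rw [hkey]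
  set g : Fin n → RatFunc N := fun m => if m = l then 0 else RatFunc.X with hg
  set h : Fin n → RatFunc N := fun m => if m = l then algebraMap N (RatFunc N) RatFunc.X else 0
    with hh
  have hgl : g l = 0 := if_pos rfl
  have hgn : ∀ m, m ≠ l → g m = RatFunc.X := fun m hm => if_neg hm
  have hhl : h l = algebraMap N (RatFunc N) RatFunc.X := if_pos rfl
  have hhn : ∀ m, m ≠ l → h m = 0 := fun m hm => if_neg hm
  have hgh : ∀ m, coef τ m ≠ 0 → g m = RatFunc.X ∧ h m = 0 := by
    intro m hm
    have hml : m ≠ l := by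
      rintro rfl
      exact hm hl0
    exact ⟨hgn m hml, hhn m hml⟩
  set z' := aff ι g h y with hz'
  obtain ⟨e, he, hP⟩ : ∃ e : K, e ≠ 0 ∧ PY a c τ (RatFunc N) z' (ι e * RatFunc.X) := by
    by_cases hB : Bfun τ y = 0
    · exact ⟨1, one_ne_zero, Or.inl (yv_aff ⟨hw', hB⟩ ι hgh)⟩
    · exact ⟨_, hB, Or.inr ⟨av_aff hw' ι hgh, (Bfun_aff y ι hgh).symm⟩⟩
  have hιe0 : ∀ {d : K}, d ≠ 0 → ι d ≠ 0 := by
    intro d hd
    rw [Ne, map_eq_zero]
    exact hd
  have hz'A : AV a c τ (RatFunc N) z' := av_aff hw' ι hgh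
  have hatg : ∀ m d, At0 (ι d * g m + h m) (if m = l then RatFunc.X else 0 : N) := by
    intro m d
    by_cases hm : m = l
    · rw [if_pos hm, hm, hgl, hhl, mul_zero, zero_add]
      exact at0_const _
    · rw [if_neg hm, hgn m hm, hhn m hm, add_zero, hιe]
      have h1 := at0_mul (at0_const (algebraMap K N d)) at0_X
      rwa [mul_zero] at h1
  refine homK (V := YV a c τ) (P := PY a c τ) (HC.essFiniteType_ratFuncL hKE)
    hNr hzr (fun N' _ _ φ => yv_map hzY φ) (z' := z') (f := ι e * RatFunc.X) hP
    (mul_ne_zero (hιe0 he) RatFunc.X_ne_zero)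
    (fun m hm => (aff_none _ _ _ _ _).2 ((hzn m).1 hm)) (fun m d hm => ?_) ?_ le_rfl ?_
  · obtain ⟨d', hd', hd⟩ := Option.map_eq_some_iff.1 hm
    refine ⟨_, aff_some _ _ _ hd', ?_⟩
    rw [← hd]
    exact hatg m d'
  · rw [hιe]
    have h1 := at0_mul (at0_const (algebraMap K N e)) at0_X
    rwa [mul_zero] at h1
  · intro v hv hv1 hv2
    left
    have hco := spec_coord v hz'A.1 hv1.1.1
    have hval : ∀ {d : K}, d ≠ 0 → v.val (ι d) = 1 := by
      intro d hd
      refine Place.val_eq_one_of_algebraic v ?_ (hιe0 hd)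
      exact (hKalg d).algHom ι
    have hgd : ∀ m, (z' m).getD 0 = ι ((y m).getD 0) * g m + (if y m = none then 0 else h m) := by
      intro m
      rw [hz']
      unfold aff
      cases y m <;> simp
    have hfX : v.val (ι e * RatFunc.X) = v.val RatFunc.X := by
      rw [map_mul, hval he, one_mul]
    have hpos : 0 < v.ord (ι e * RatFunc.X) := by
      rcases lt_or_gt_of_ne hv with hneg | hpos
      · exfalso
        have h1 := (v.ord_neg_iff (mul_ne_zero (hιe0 he) RatFunc.X_ne_zero)).1 hneg
        rw [hfX] at h1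
        have h4 : v.val ((z' o).getD 0) ≤ 1 := (hco o).1
        rw [hgd, hgn o hol, hhn o hol] at h4
        simp only [ite_self, add_zero] at h4
        rw [map_mul, hval ho', one_mul] at h4
        exact absurd h4 (not_le.2 h1)
      · exact hpos
    refine ⟨?_, hpos⟩
    have hX1 := (v.ord_pos_iff (mul_ne_zero (hιe0 he) RatFunc.X_ne_zero)).1 hpos
    rw [hfX] at hX1
    have hX0 : v.res (RatFunc.X : RatFunc N) = 0 := (v.res_eq_zero_iff hX1.le).2 hX1
    have hXr : (RatFunc.X : RatFunc N) ∈ v.ring := hX1.le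
    refine key_of_res (IsScalarTower.toAlgHom k N (RatFunc N)) v (fun m => ?_) (fun m => ?_)
      (by rw [hv2, hzr])
    · change algebraMap N (RatFunc N) ((z m).getD 0) ∈ v.ring ∧
        (spec v z' m).getD 0 = v.res (algebraMap N (RatFunc N) ((z m).getD 0))
      obtain ⟨h1, h2⟩ := hco m
      by_cases hm : m = l
      · subst hm
        rw [hgd, hgl, hhl, hwl', mul_zero, zero_add,
          if_neg (Option.some_ne_none _)] at h1 h2
        rw [hzl]
        exact ⟨h1, h2⟩
      · rw [hz0 m hm, map_zero, v.res_zero]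
        refine ⟨zero_mem _, ?_⟩
        rw [h2, hgd, hgn m hm, hhn m hm]
        simp only [ite_self, add_zero]
        have h5 : ι ((y m).getD 0) ∈ v.ring := by
          by_cases h0 : (y m).getD 0 = 0
          · rw [h0, map_zero]
            exact zero_mem _
          · exact (hval h0).le
        rw [v.res_mul h5 hXr, hX0, mul_zero]
    · rw [← hv1.1.1 m, ← hzY.1.1 m]

/-- The axis. -/
theorem mem_axis (ha : a ≠ 0) {i j l : Fin n} (hij : i ≠ j) (hil : i ≠ l) (hjl : j ≠ l)
    (hi : τ i ≠ none) (hj : τ j ≠ none) (hl : τ l ≠ none) (hl0 : coef τ l = 0)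
    {M : Type} [Field M] [Algebra k M] {x : Fin n → Option M} (hx : YV a c τ M x)
    (hr : Algebra.trdeg k (fld k x) = (1 : ℕ)) (h0 : ∀ m, m ≠ l → (x m).getD 0 = 0) :
    Finsupp.single (key k x) 1 ∈ rat (YV a c τ) (PY a c τ) 1 := by
  obtain ⟨w, hw, hwl, o, hol, ho⟩ := exists_av_one (c := c) ha hij hil hjl hi hj hl hl0
  have hwr : Algebra.trdeg k (fld k w) = (0 : ℕ) := by
    rw [Nat.cast_zero, trdeg_eq_zero_iff]
    infer_instance
  have ho' : ((restr k w) o).getD 0 ≠ 0 := by
    intro h0
    have h1 := getD_restr (k := k) w o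
    rw [h0] at h1
    exact ho h1.symm
  have hwl' : (restr k w) l = some 1 := by
    have h1 := congrFun (restr_map (F := k) w) l
    rw [hwl] at h1
    obtain ⟨e, he, he'⟩ := Option.map_eq_some_iff.1 h1
    rw [he]
    congr 1
    exact Subtype.ext he'
  exact mem_axis_aux ha hl0 hx hr h0 (essFiniteType_fld w) hwr (av_restr hw) hwl' hol ho'

/-- Cycles of dimension `1`, if a coefficient is zero. -/
theorem mem_alpha (ha : a ≠ 0) {i j l : Fin n} (hij : i ≠ j) (hil : i ≠ l) (hjl : j ≠ l)
    (hi : τ i ≠ none) (hj : τ j ≠ none) (hl : τ l ≠ none) (hl0 : coef τ l = 0)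
    {N : Type} [Field N] [Algebra k N] {x : Fin n → Option N}
    (hx : YV a c τ N x) (hr : Algebra.trdeg k (fld k x) = (1 : ℕ)) :
    Finsupp.single (key k x) 1 ∈ rat (YV a c τ) (PY a c τ) 1 := by
  have hflat : ∀ (M : Type) [Field M] [Algebra k M] (y : Fin n → Option M), YV a c τ M y →
      Algebra.trdeg k (fld k y) = (1 : ℕ) → (∀ i, i ≠ l → IsAlgebraic k ((y i).getD 0)) →
      Finsupp.single (key k y) 1 ∈ rat (YV a c τ) (PY a c τ) 1 := by
    intro M _ _ y hy hyr halg
    by_cases h : ∃ m, m ≠ l ∧ (y m).getD 0 ≠ 0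
    · obtain ⟨m, hm, hm0⟩ := h
      exact mem_flat hl0 hy hyr halg hm hm0
    · push Not at h
      exact mem_axis ha hij hil hjl hi hj hl hl0 hy hyr h
  rw [← key_restr]
  have hx' := yv_restr hx
  have hr' := hr
  rw [← trdeg_fld_restr] at hr'
  set y := restr k x with hy
  by_cases halg : ∀ i, i ≠ l → IsAlgebraic k ((y i).getD 0)
  · exact hflat _ y hx' hr' halg
  -- the field of the other coordinates
  set d : {m : Fin n // m ≠ l} → fld k x := fun m => (y m).getD 0 with hd
  set M := IntermediateField.adjoin k (Set.range d) with hM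
  have hMtr : Algebra.trdeg k M ≠ 0 := by
    intro h0
    apply halg
    intro m hm
    exact alg_of_adjoin (S := Set.range d) h0 ⟨⟨m, hm⟩, rfl⟩
  have halgM : ∀ u : fld k x, IsAlgebraic M u := alg_of_one (by exact_mod_cast hr) M hMtr
  set ι := IsScalarTower.toAlgHom k (fld k x) (RatFunc (fld k x)) with hι
  set h : Fin n → RatFunc (fld k x) := fun m => if m = l then RatFunc.X else 0 with hh
  have hhl : h l = RatFunc.X := if_pos rfl
  have hhn : ∀ m, m ≠ l → h m = 0 := fun m hm => if_neg hm
  set z' := aff ι (fun _ => 1) h y with hz'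
  have hz'Y : YV a c τ (RatFunc (fld k x)) z' := yv_aff hx' ι (g0 := 1)
    fun m hm => ⟨rfl, hhn m (by rintro rfl; exact hm hl0)⟩
  have hat : ∀ m e, At0 (ι e * 1 + h m) e := by
    intro m e
    have h1 : At0 (h m) (0 : fld k x) := by
      by_cases hm : m = l
      · rw [hm, hhl]
        exact at0_X
      · rw [hhn m hm]
        have h2 := at0_const (0 : fld k x)
        rwa [map_zero] at h2
    have h3 := at0_add (at0_const e) h1
    rw [add_zero] at h3
    rw [mul_one]
    exact h3
  refine homK (V := YV a c τ) (P := PY a c τ) (essFiniteType_fld x) hr hr'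
    (fun N' _ _ φ => yv_map hx' φ) (z' := z') (f := RatFunc.X) (Or.inl hz'Y) RatFunc.X_ne_zero
    (fun j hj => (aff_none _ _ _ _ _).2 hj) (fun j e hj => ⟨_, aff_some _ _ _ hj, hat j e⟩)
    at0_X le_rfl ?_
  intro v hv hw hwr
  have hco := spec_coord v hz'Y.1.1 hw.1.1
  have hgd : ∀ m, (z' m).getD 0 = algebraMap (fld k x) (RatFunc (fld k x)) ((y m).getD 0) +
      (if y m = none then 0 else h m) := by
    intro m
    rw [hz']
    unfold aff
    cases y m with
    | none => simp
    | some u =>
      simp only [Option.map_some, Option.getD_some, mul_one, reduceCtorEq, if_false]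
      rfl
  by_cases hvM : ∀ u ∈ M, u ≠ 0 → v.val (algebraMap (fld k x) (RatFunc (fld k x)) u) = 1
  · left
    have htriv : ∀ u : fld k x, u ≠ 0 →
        v.val (algebraMap (fld k x) (RatFunc (fld k x)) u) = 1 :=
      fun u hu => val_one_of_alg v M hvM (halgM u) hu
    have hpos : 0 < v.ord (RatFunc.X : RatFunc (fld k x)) := by
      rcases lt_or_gt_of_ne hv with hneg | hpos
      · exfalso
        have h1 := (v.ord_neg_iff RatFunc.X_ne_zero).1 hneg
        have h4 : v.val ((z' l).getD 0) ≤ 1 := (hco l).1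
        have h5 : y l ≠ none := fun h0 => hl ((hx'.1.1 l).2 h0)
        have h6 : v.val (algebraMap (fld k x) (RatFunc (fld k x)) ((y l).getD 0)) ≤ 1 := by
          by_cases h0 : (y l).getD 0 = 0
          · rw [h0, map_zero, map_zero]
            exact zero_le_one
          · exact (htriv _ h0).le
        rw [hgd, if_neg h5, hhl, Valuation.map_add_eq_of_lt_right _ (h6.trans_lt h1)] at h4
        exact absurd h4 (not_le.2 h1)
      · exact hpos
    exact ⟨key_spec_triv v htriv ((v.ord_pos_iff RatFunc.X_ne_zero).1 hpos)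
      (fun j hj => (aff_none _ _ _ _ _).2 hj) fun j e hj => ⟨_, aff_some _ _ _ hj, hat j e⟩, hpos⟩
  · right
    push Not at hvM
    obtain ⟨m, hm, hm0, hm1⟩ := hvM
    have hwi : ∀ o : {m : Fin n // m ≠ l},
        v.val (algebraMap (fld k x) (RatFunc (fld k x)) (d o)) ≤ 1 ∧
        (spec v z' o).getD 0 = v.res (algebraMap (fld k x) (RatFunc (fld k x)) (d o)) := by
      rintro ⟨o, ho⟩
      obtain ⟨h1, h2⟩ := hco o
      rw [hgd, hhn o ho, ite_self, add_zero] at h1 h2
      exact ⟨h1, h2⟩
    have h1 := HC.abh_adjoin (k₀ := k) v (M := M) (s := 0) (by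
        have h2 : Algebra.trdeg k M ≤ Algebra.trdeg k (fld k x) :=
          HC.trdeg_le_of_inj M.val Subtype.val_injective
        rw [hr] at h2
        simpa using h2) ⟨⟨m, hm⟩, fun h => hm0 (congrArg Subtype.val h), hm1⟩
      (fun o : {m : Fin n // m ≠ l} =>
        (⟨d o, IntermediateField.subset_adjoin k _ ⟨o, rfl⟩⟩ : M)) (fun o => (hwi o).1)
    refine hflat _ _ hw hwr fun o ho => ?_
    have h2 : Algebra.trdeg k (IntermediateField.adjoin k (Set.range fun o : {m : Fin n // m ≠ l} =>
        v.res (algebraMap (fld k x) (RatFunc (fld k x)) (d o)))) = 0 := by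
      rw [← nonpos_iff_eq_zero]
      exact_mod_cast h1
    refine alg_of_adjoin h2 ⟨⟨o, ho⟩, ?_⟩
    exact (hwi ⟨o, ho⟩).2.symm

/-- The group of cycles of dimension `1` vanishes, if a coefficient is zero and there are two
other finite coordinates. -/
theorem rank_alpha (ha : a ≠ 0) {i j l : Fin n} (hij : i ≠ j) (hil : i ≠ l) (hjl : j ≠ l)
    (hi : τ i ≠ none) (hj : τ j ≠ none) (hl : τ l ≠ none) (hl0 : coef τ l = 0) :
    Module.rank ℚ (CHY a c τ 1) = 0 :=
  rank_zero_of fun _ _ _ _ hx hr => mem_alpha ha hij hil hjl hi hj hl hl0 hx hr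

/-- The group of cycles of dimension `1` has rank at most `1`, if there are only two finite
coordinates and one of the coefficients is zero. -/
theorem rank_alpha_two [Fact p.Prime] [CharP k p] {i l : Fin n} (hil : i ≠ l)
    (hi : coef τ i ≠ 0) (hl : τ l ≠ none) (hl0 : coef τ l = 0)
    (h : ∀ j, j ≠ i → j ≠ l → τ j = none) : Module.rank ℚ (CHY a c τ 1) ≤ 1 := by
  set z : Fin n → Option (RatFunc k) := fun m => if τ m = none then none else
    some (if m = l then RatFunc.X else 0) with hz
  have hz0 : ∀ m, m ≠ l → (z m).getD 0 = 0 := by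
    intro m hm
    by_cases hm' : τ m = none
    · have : z m = none := if_pos hm'
      rw [this]
      rfl
    · have : z m = some (if m = l then RatFunc.X else 0) := if_neg hm'
      rw [this, if_neg hm]
      rfl
  have hzl : z l = some RatFunc.X := by
    have : z l = some (if l = l then RatFunc.X else 0) := if_neg hl
    rw [this, if_pos rfl]
  have hzr : Algebra.trdeg k (fld k z) = (1 : ℕ) := by
    have h1 : Algebra.trdeg k (fld k z) ≤ Algebra.trdeg k (RatFunc k) :=
      HC.trdeg_le_of_inj (fld k z).val Subtype.val_injective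
    have h0 : Algebra.trdeg k (RatFunc k) = (1 : ℕ) := by
      have h1 : Algebra.trdeg k k = (0 : ℕ) := by
        rw [Nat.cast_zero, trdeg_eq_zero_iff]
        infer_instance
      rw [HC.trdeg_ratFuncL h1]
      simp
    rw [h0] at h1
    refine le_antisymm h1 ?_
    rw [Nat.cast_one, Cardinal.one_le_iff_ne_zero]
    intro h2
    rw [trdeg_eq_zero_iff] at h2
    have h3 : (RatFunc.X : RatFunc k) ∈ fld k z := Pool.Agent.Helper1.KL.mem_fld hzl
    have h4 := h2.isAlgebraic ⟨RatFunc.X, h3⟩
    have h5 : IsAlgebraic k (RatFunc.X : RatFunc k) :=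
      (isAlgebraic_algebraMap_iff (A := RatFunc k) (S := fld k z) (Subtype.val_injective)).2 h4
    exact RatFunc.transcendental_X h5
  refine rank_le_one_of (key k z) fun N _ _ x hx hr => ?_
  refine Submodule.mem_sup_right ?_
  have hN : CharP N p := charP_of_injective_algebraMap (algebraMap k N).injective p
  have hx0 : ∀ m, m ≠ l → (x m).getD 0 = 0 := by
    intro m hm
    by_cases hmi : m = i
    · subst hmi
      have h1 := hx.2
      unfold Bfun at h1
      rw [Finset.sum_eq_single m] at h1
      · have h2 : (coef τ m : N) ≠ 0 := by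
          rw [Ne, CharP.cast_eq_zero_iff N p]
          intro h3
          have h4 : coef τ m < p := ZMod.val_lt _
          exact absurd (Nat.le_of_dvd (Nat.pos_of_ne_zero hi) h3) (not_le.2 h4)
        exact (mul_eq_zero.1 h1).resolve_left h2
      · intro o _ ho
        by_cases hol : o = l
        · rw [hol, hl0, Nat.cast_zero, zero_mul]
        · rw [coef_none (h o ho hol), Nat.cast_zero, zero_mul]
      · intro h3
        exact absurd (Finset.mem_univ _) h3
    · rw [(hx.1.1 m).1 (h m hmi hm)]
      rfl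
  have hkey : key k x = key k z := by
    refine key_axis hx0 hz0 hr hzr fun m => ?_
    rw [← hx.1.1 m]
    by_cases hm : τ m = none
    · have : z m = none := if_pos hm
      simp [hm, this]
    · have : z m = some (if m = l then RatFunc.X else 0) := if_neg hm
      simp [hm, this]
  rw [hkey]
  exact Submodule.mem_span_singleton_self _

end alpha

end Pool.Agent.Helper68.KA
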