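import Pool.Agent.Helper68.KA.LDefs
import Pool.Agent.Helper17.KA.Zero
import Pool.Agent.HC.LDW
import Pool.Agent.Helper19.KL.M6

set_option autoImplicit false

/-!
Project KA (MP_0b9e0b_ag), module KA-19: the L-function for cycles of dimension zero.
-/

namespace Pool.Agent.Helper68.KA

open Pool.Agent.Helper1.KA
open Pool.Agent.Helper19.KL (lin_ne rm_lin_one rm_pow)
open scoped Classical

section count

variable {κ : Type} [Field κ] [Fintype κ] {p : ℕ} [Fact p.Prime] [CharP κ p]

omit [Fact p.Prime] [CharP κ p] in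
theorem card_curve {a : ℕ} {t c : κ} :
    Nat.card {z : Option κ × Option κ // Curve p a t c z.1 z.2} =
      1 + ∑ x : κ, ∑ y : κ, if y ^ p - y = t * c * x ^ a + x then 1 else 0 := by
  let f : Unit ⊕ {z : κ × κ // z.2 ^ p - z.2 = t * c * z.1 ^ a + z.1} →
      {z : Option κ × Option κ // Curve p a t c z.1 z.2} := fun w => match w with
    | Sum.inl _ => ⟨(none, none), Or.inl ⟨rfl, rfl⟩⟩
    | Sum.inr z => ⟨(some z.1.1, some z.1.2), Or.inr ⟨z.1.1, z.1.2, rfl, rfl, z.2⟩⟩
  have hf : Function.Bijective f := by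
    constructor
    · rintro (_ | ⟨⟨x, y⟩, hz⟩) (_ | ⟨⟨x', y'⟩, hz'⟩) h
      · rfl
      · simp [f, Prod.ext_iff, Subtype.ext_iff] at h
      · simp [f, Prod.ext_iff, Subtype.ext_iff] at h
      · simp only [f, Subtype.ext_iff, Prod.ext_iff, Option.some_inj] at h
        obtain ⟨h1, h2⟩ := h
        subst h1
        subst h2
        rfl
    · rintro ⟨⟨x, y⟩, h⟩
      rcases h with ⟨h1, h2⟩ | ⟨u, w, h1, h2, h3⟩
      · simp only at h1 h2
        subst h1
        subst h2
        exact ⟨Sum.inl (), rfl⟩
      · simp only at h1 h2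
        subst h1
        subst h2
        exact ⟨Sum.inr ⟨(u, w), h3⟩, rfl⟩
  rw [← Nat.card_congr (Equiv.ofBijective f hf), Nat.card_sum]
  congr 1
  · simp
  · rw [Nat.card_eq_fintype_card, Fintype.card_subtype, Finset.card_filter,
      Fintype.sum_prod_type]

theorem card_fix : (∑ y : κ, if y ^ p - y = 0 then 1 else 0) = p := by
  rw [← Finset.card_filter]
  have hp : 1 < p := (Fact.out : p.Prime).one_lt
  apply le_antisymm
  · have h0 : (Polynomial.X ^ p - Polynomial.X : Polynomial κ) ≠ 0 :=
      FiniteField.X_pow_card_sub_X_ne_zero κ hp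
    have h1 : (Finset.univ.filter fun y : κ => y ^ p - y = 0) ⊆
        (Polynomial.X ^ p - Polynomial.X : Polynomial κ).roots.toFinset := by
      intro y hy
      rw [Finset.mem_filter] at hy
      rw [Multiset.mem_toFinset, Polynomial.mem_roots h0]
      simp [hy.2]
    refine (Finset.card_le_card h1).trans ((Multiset.toFinset_card_le _).trans
      ((Polynomial.card_roots' _).trans (le_of_eq ?_)))
    exact FiniteField.X_pow_card_sub_X_natDegree_eq κ hp
  · have : CharP κ p := inferInstance
    let g : ZMod p →+* κ := ZMod.castHom (dvd_refl p) κ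
    have h1 : (Finset.univ.image g) ⊆ Finset.univ.filter fun y : κ => y ^ p - y = 0 := by
      intro y hy
      rw [Finset.mem_image] at hy
      obtain ⟨m, -, rfl⟩ := hy
      rw [Finset.mem_filter]
      refine ⟨Finset.mem_univ _, ?_⟩
      rw [← map_pow, ZMod.pow_card, sub_self]
    refine le_trans ?_ (Finset.card_le_card h1)
    rw [Finset.card_image_of_injective _ g.injective, Finset.card_univ, ZMod.card]

/-- The sum of the traces. -/
theorem sum_trC {a : ℕ} (ha : a ≠ 0) {c : κ} (hc : c ≠ 0) :
    ∑ t : κˣ, trC κ p a t c = -((p : ℤ) - 1) * Fintype.card κ := by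
  -- all `t`
  have h1 : ∑ t : κ, (∑ x : κ, ∑ y : κ, if y ^ p - y = t * c * x ^ a + x then 1 else 0) =
      (Fintype.card κ - 1) * Fintype.card κ + p * Fintype.card κ := by
    rw [Finset.sum_comm]
    have h2 : ∀ x : κ, (∑ t : κ, ∑ y : κ, if y ^ p - y = t * c * x ^ a + x then 1 else 0) =
        if x = 0 then p * Fintype.card κ else Fintype.card κ := by
      intro x
      by_cases hx : x = 0
      · subst hx
        rw [if_pos rfl]
        have h3 : ∀ t : κ, (∑ y : κ, if y ^ p - y = t * c * 0 ^ a + 0 then 1 else 0) = p := by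
          intro t
          rw [zero_pow ha, mul_zero, add_zero]
          exact card_fix
        rw [Finset.sum_congr rfl fun t _ => h3 t, Finset.sum_const, Finset.card_univ,
          smul_eq_mul, mul_comm]
      · rw [if_neg hx, Finset.sum_comm]
        have h3 : ∀ y : κ, (∑ t : κ, if y ^ p - y = t * c * x ^ a + x then 1 else 0) = 1 := by
          intro y
          have hcx : c * x ^ a ≠ 0 := mul_ne_zero hc (pow_ne_zero _ hx)
          rw [Finset.sum_eq_single ((y ^ p - y - x) / (c * x ^ a))]
          · rw [if_pos]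
            rw [mul_assoc, div_mul_cancel₀ _ hcx]
            ring
          · intro t _ ht
            rw [if_neg]
            intro h
            apply ht
            rw [eq_div_iff hcx]
            linear_combination -h
          · intro h
            exact absurd (Finset.mem_univ _) h
        rw [Finset.sum_congr rfl fun y _ => h3 y, Finset.sum_const, Finset.card_univ,
          smul_eq_mul, mul_one]
    rw [Finset.sum_congr rfl fun x _ => h2 x, ← Finset.add_sum_erase _ _ (Finset.mem_univ (0 : κ)),
      if_pos rfl, Finset.sum_congr rfl (g := fun _ => Fintype.card κ) fun x hx => by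
        rw [if_neg (Finset.ne_of_mem_erase hx)], Finset.sum_const,
      Finset.card_erase_of_mem (Finset.mem_univ _), Finset.card_univ, smul_eq_mul, add_comm]
  -- `t = 0`
  have h4 : (∑ x : κ, ∑ y : κ, if y ^ p - y = 0 * c * x ^ a + x then 1 else 0) =
      Fintype.card κ := by
    rw [Finset.sum_comm]
    have h3 : ∀ y : κ, (∑ x : κ, if y ^ p - y = 0 * c * x ^ a + x then 1 else 0) = 1 := by
      intro y
      rw [Finset.sum_eq_single (y ^ p - y)]
      · rw [if_pos]
        ring
      · intro x _ hx
        rw [if_neg]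
        intro h
        apply hx
        rw [h]
        ring
      · intro h
        exact absurd (Finset.mem_univ _) h
    rw [Finset.sum_congr rfl fun y _ => h3 y, Finset.sum_const, Finset.card_univ, smul_eq_mul,
      mul_one]
  have h5 : ∑ t : κ, (∑ x : κ, ∑ y : κ, if y ^ p - y = t * c * x ^ a + x then 1 else 0) =
      (∑ x : κ, ∑ y : κ, if y ^ p - y = 0 * c * x ^ a + x then 1 else 0) +
      ∑ t : κˣ, (∑ x : κ, ∑ y : κ, if y ^ p - y = (t : κ) * c * x ^ a + x then 1 else 0) := by
    rw [← Finset.add_sum_erase _ _ (Finset.mem_univ (0 : κ))]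
    congr 1
    symm
    refine Finset.sum_nbij' (fun t : κˣ => (t : κ)) (fun t => if h : t = 0 then 1 else Units.mk0 t h)
      ?_ ?_ ?_ ?_ ?_
    · intro t _
      exact Finset.mem_erase.2 ⟨t.ne_zero, Finset.mem_univ _⟩
    · intro t _
      exact Finset.mem_univ _
    · intro t _
      rw [dif_neg t.ne_zero]
      exact Units.ext rfl
    · intro t ht
      rw [dif_neg (Finset.ne_of_mem_erase ht)]
      rfl
    · intro t _
      rfl
  have hQ : 1 ≤ Fintype.card κ := Fintype.card_pos
  have h6 : ((∑ t : κˣ, (∑ x : κ, ∑ y : κ,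
      if y ^ p - y = (t : κ) * c * x ^ a + x then 1 else 0) : ℕ) : ℤ) =
      ((Fintype.card κ : ℤ) - 1) * Fintype.card κ + p * Fintype.card κ - Fintype.card κ := by
    rw [h1, h4] at h5
    have h7 := congrArg (fun m : ℕ => (m : ℤ)) h5
    simp only [Nat.cast_add, Nat.cast_mul, Nat.cast_sub hQ, Nat.cast_one] at h7
    linarith
  have h8 : ∀ t : κˣ, trC κ p a t c = (Fintype.card κ : ℤ) -
      ((∑ x : κ, ∑ y : κ, if y ^ p - y = (t : κ) * c * x ^ a + x then 1 else 0 : ℕ) : ℤ) := by
    intro t
    unfold trC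
    rw [card_curve, Nat.card_eq_fintype_card]
    push_cast
    ring
  rw [Nat.cast_sum] at h6
  rw [Finset.sum_congr rfl fun t _ => h8 t, Finset.sum_sub_distrib, h6,
    Finset.sum_const, Finset.card_univ, Fintype.card_units, nsmul_eq_mul, Nat.cast_sub hQ,
    Nat.cast_one]
  ring

end count

section final

open Polynomial

variable {k : Type} [Field k] {p : ℕ} [Fact p.Prime] [CharP k p] {a n : ℕ} {c : Fin n → k}

/-- The L-function and its order of vanishing. -/
theorem exists_L [Finite k] (ha : a ≠ 0) (hc : ∀ i, c i ≠ 0) :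
    ∃ L : ℚ[X], IsL p a c (L : PowerSeries ℚ) ∧
      L.rootMultiplicity ((Nat.card k : ℚ)⁻¹) = n * (p - 1) := by
  set q : ℚ := (Nat.card k : ℚ) with hq
  have hq1 : 1 < q := by
    rw [hq]
    exact_mod_cast Finite.one_lt_card
  have hq0 : q ≠ 0 := by linarith
  set M : ℕ := n * (p - 1) with hM
  have hMq : (M : ℚ) = n * ((p : ℚ) - 1) := by
    rw [hM]
    push_cast [Nat.cast_sub (Fact.out : p.Prime).one_le]
    rfl
  refine ⟨(1 - C q * X) ^ M, ⟨?_, ?_⟩, ?_⟩
  · rw [Polynomial.constantCoeff_coe, Polynomial.coeff_zero_eq_eval_zero]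
    simp
  · refine ⟨fun N => if N = 0 then 0 else -(n : ℚ) * ((p : ℚ) - 1) * q ^ N, if_pos rfl,
      fun κ _ _ hκ => ?_, ?_⟩
    · have hfin : Module.Finite k κ := Module.finite_of_finrank_pos (Nat.pos_of_ne_zero hκ)
      have hfinκ : Finite κ := Module.finite_of_finite k
      have : Fintype κ := Fintype.ofFinite κ
      have : CharP κ p := charP_of_injective_algebraMap (algebraMap k κ).injective p
      simp only [if_neg hκ]
      have hcκ : ∀ i, algebraMap k κ (c i) ≠ 0 := fun i => by
        rw [Ne, map_eq_zero]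
        exact hc i
      rw [finsum_eq_sum_of_fintype, Finset.sum_comm,
        Finset.sum_congr rfl fun i _ => sum_trC (p := p) ha (hcκ i), Finset.sum_const,
        Finset.card_univ, Fintype.card_fin, nsmul_eq_mul]
      have h1 : (Fintype.card κ : ℚ) = q ^ Module.finrank k κ := by
        rw [hq, ← Nat.card_eq_fintype_card, Module.natCard_eq_pow_finrank (K := k) (V := κ)]
        push_cast
        rfl
      push_cast
      rw [h1]
      ring
    · have h2 := (HC.LDW.isLog_lin q).pow M
      unfold HC.LDW.IsLog at h2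
      have h1 : (((1 - C q * X) ^ M : ℚ[X]) : PowerSeries ℚ) =
          ((1 - C q * X : ℚ[X]) : PowerSeries ℚ) ^ M := by
        rw [Polynomial.coe_pow]
      rw [h1, h2]
      congr 1
      ext N
      rw [map_nsmul, PowerSeries.coeff_mk]
      unfold HC.LDW.geo
      simp only [PowerSeries.coeff_mk]
      by_cases hN : N = 0
      · simp [hN]
      · simp only [if_neg hN]
        rw [nsmul_eq_mul, hMq]
        ring
  · rw [rm_pow (lin_ne _), rm_lin_one hq0, mul_one]

/-- The Beilinson-Bloch inequality for cycles of dimension zero on `X`. -/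
theorem rank_zero_L [Finite k] (ha : a ≠ 0) (hc : ∀ i, c i ≠ 0) (hmain : Main k p a n c 0) :
    ∃ L : ℚ[X], IsL p a c (L : PowerSeries ℚ) ∧ Module.rank ℚ (CHX p a c 0) ≤
      ((1 + L.rootMultiplicity ((Nat.card k : ℚ)⁻¹) : ℕ) : Cardinal.{0}) := by
  obtain ⟨L, hL, hr⟩ := exists_L (p := p) ha hc
  refine ⟨L, hL, ?_⟩
  rw [hr]
  exact Pool.Agent.Helper17.KA.rank_zero k p a n c ha hmain

end final

end Pool.Agent.Helper68.KA
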