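import Pool.Agent.Helper1.KA.Defs

set_option autoImplicit false

/-!
Project KA (MP_0b9e0b_ag): the L-function for cycles of dimension zero. Definitions.
-/

namespace Pool.Agent.Helper68.KA

/-- The trace of Frobenius on the first cohomology group of the projective curve
`y ^ p - y = t c x ^ a + x` over the finite field `κ`: `#κ + 1` minus the number of points. -/
noncomputable def trC (κ : Type) [Field κ] (p a : ℕ) (t c : κ) : ℤ :=
  (Nat.card κ : ℤ) + 1 -
    Nat.card {z : Option κ × Option κ // Pool.Agent.Helper1.KA.Curve p a t c z.1 z.2}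

/-- `L` is the power series with constant coefficient `1` and `T L' / L = ∑ e_N T^N`, where `e_N`
is the sum over the nonzero elements `t` of the extension `κ` of degree `N` of `k` of the traces
of Frobenius on the first cohomology of the product of the curves
`y ^ p - y = t c i x ^ a + x`. -/
def IsL {k : Type} [Field k] (p a : ℕ) {n : ℕ} (c : Fin n → k) (L : PowerSeries ℚ) : Prop :=
  PowerSeries.constantCoeff L = 1 ∧ ∃ e : ℕ → ℚ, e 0 = 0 ∧
    (∀ (κ : Type) [Field κ] [Algebra k κ], Module.finrank k κ ≠ 0 →
      e (Module.finrank k κ) =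
        ((∑ᶠ t : κˣ, ∑ i, trC κ p a t (algebraMap k κ (c i)) : ℤ) : ℚ)) ∧
    PowerSeries.X * PowerSeries.derivative ℚ L = L * PowerSeries.mk e

end Pool.Agent.Helper68.KA
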